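import Pool.Agent.HBL.Main

/-!
# The regular pentagon is a strict local maximum of the distance to the nearest triangle

Definitions. `Pool/Agent/HBM3/Defs.lean`: `Pl` is the Euclidean plane; `IsBody C`: `C` is convex,
compact, with nonempty interior; `IsNGon n P`: `P` is the convex hull of at most `n` points and has
nonempty interior; `homDist C₁ C₂` is the infimum of the ratios `λ₂ / λ₁` with
`λ₁ C₁ + t₁ ⊆ C₂ ⊆ λ₂ C₁ + t₂`. `Pool/Agent/HBL/Defs.lean`: `IsAffineRegularPentagon P`: `P` is the
image of the regular pentagon with vertices `(cos (2πk/5), sin (2πk/5))` under a bijective affine
map; `triDist C`: the infimum of `homDist C Q` over all triangles `Q`.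

The conjecture for `n = 3` says `triDist C ≤ 1 + √5/2` for every planar convex body `C`, with the
regular pentagon extremal. The theorem is the local form of this among all bodies.

Proof idea. Upper bound: let `C` lie between an affine-regular pentagon and a slightly larger copy
of it. For every side `j` take a point `p j` of `C` that minimizes the distance to the side plus
the square of the distance to its midpoint. This gives a supporting line of `C` at `p j`; the five
lines bound a pentagon `v 0, …, v 4` around `C` with touching points near the midpoints of its
sides. Let `A j` be the point of `C` farthest from the side opposite to `v j`. The triangle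
with vertex `A j`, base parallel to the opposite side at the relative level `(3 - √5)/2` and
the other two vertices on the segments `p (j+1) A (j+2)` and `p (j+3) A (j+3)` is compared with
its circumscribed homothetic copy. If none of the five triangles has the property, the five
inequalities, with weights the products of two ear areas of the pentagon, add up to
`0 ≤ (cubic form in the ear areas) - (positive multiple of the corner cuts)`, where the cubic form
is negative definite near the regular point transversally to scaling. Lower bound for the regular
pentagon (known, Fleischer, Mehlhorn, Rote, Welzl and Yap 1992): a largest triangle of given shape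
in the pentagon touches a side and the two sides opposite to it, and then an explicit computation
gives the ratio.
-/

namespace Pool.Agent.Results.MP_f9af53_co.LocalMaximality

open Pool.Agent.HBM3 Pool.Agent.HBL

/-- Let `P` be an affine-regular pentagon and `C` a planar convex body whose homothety
Banach-Mazur distance to `P` is less than `1 + 10⁻¹⁵`. Then the distance of `C` to the nearest
triangle is at most `1 + √5/2`, with equality if and only if `C` is an affine-regular pentagon. -/
theorem result :
    ∀ P C : Set Pl, IsAffineRegularPentagon P → IsBody C → homDist C P < 1 + 1 / 10 ^ 15 →
      triDist C ≤ 1 + Real.sqrt 5 / 2 ∧
        (triDist C = 1 + Real.sqrt 5 / 2 ↔ IsAffineRegularPentagon C) :=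
  fun _ _ hP hC h => main hP hC h

end Pool.Agent.Results.MP_f9af53_co.LocalMaximality
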