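import Pool.Agent.HBM5.Final

/-!
# Every convex polygon with at most five vertices is within `1 + √5/2` of a triangle

Definitions (`Pool/Agent/HBM3/Defs.lean`): `Pl` is the Euclidean plane; `IsNGon n P`: `P` is the
convex hull of at most `n` points and has nonempty interior; `homDist C₁ C₂` is the infimum of the
ratios `λ₂ / λ₁` with `λ₁ C₁ + t₁ ⊆ C₂ ⊆ λ₂ C₁ + t₂`.

`1 + √5/2 = 2.118…` is the distance from the regular pentagon to the nearest triangle (known), so
the regular pentagon is extremal among all convex polygons with at most five vertices, which is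
the conjecture for `γ_3` restricted to these bodies.

Proof idea. Let `v_0, …, v_4` be the vertices in cyclic order (repetitions allowed), let twice the
area be `1` and let `x_i` be twice the area of the ear at `v_i`. If `x_{i-1} + x_{i+1} ≤ 5 - 2√5`
for some `i`, the triangle `v_i v_{i+2} v_{i+3}` has the property. Otherwise all `x_i` lie in
`[0.1923, 0.3355]`, and one of the five triangles with apex `v_i` and base parallel to
`v_{i+2} v_{i+3}` at the relative level `√5 - 2 + x_i - (5 - √5)/10` has the property: with the
weights `x_{i+2} x_{i-2}` the sum of the five conditions is, after the use of Gauss' relation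
`1 - ∑ x_i + ∑ x_i x_{i+1} = 0`, a sum of five values of one polynomial in three variables, the two
Fourier modes of `(x_i)` at `j` and the mean, and this polynomial is nonnegative on the range of
these variables.
-/

namespace Pool.Agent.Results.MP_f9af53_co.PentagonUpperBound

open Pool.Agent.HBM3 Pointwise

/-- Every convex polygon `C` with at most five vertices contains a triangle `P` such that `C` is
contained in a translate of `(1 + √5/2) • P`. Hence the homothety Banach-Mazur distance of `C` to
some triangle is at most `1 + √5/2`, and the supremum over all `C` with at most five vertices of the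
infimum over all triangles is at most `1 + √5/2`. -/
theorem result :
    (∀ C : Set Pl, IsNGon 5 C → ∃ P : Set Pl, IsNGon 3 P ∧ P ⊆ C ∧
      (∃ t : Pl, C ⊆ (1 + Real.sqrt 5/2 : ℝ) • P + {t}) ∧ homDist C P ≤ 1 + Real.sqrt 5/2) ∧
    sSup {x | ∃ C, IsNGon 5 C ∧ x = sInf {y | ∃ P, IsNGon 3 P ∧ y = homDist C P}}
      ≤ 1 + Real.sqrt 5/2 := by
  refine ⟨fun C hC => ?_, Pool.Agent.HBM5.ngon_sup⟩
  obtain ⟨P, hP, hPC, t, ht⟩ := Pool.Agent.HBM5.ngon_geo hC
  have := Pool.Agent.HBM5.sqrt5_pos
  exact ⟨P, hP, hPC, ⟨t, ht⟩, Pool.Agent.HBM5.homDist_le_of (by positivity) hPC ht⟩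

end Pool.Agent.Results.MP_f9af53_co.PentagonUpperBound
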