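import Pool.Agent.H95G.Main

/-!
# Every planar convex body is within `1 / (1 - π² / n²)` of an inscribed `n`-gon, for all `n ≥ 4`

Definitions (`Pool/Agent/HBM3/Defs.lean`): `Pl` is the Euclidean plane, `IsBody C`: `C` is convex,
compact, with nonempty interior; `IsNGon n P`: `P` is the convex hull of at most `n` points and has
nonempty interior; `homDist C₁ C₂` is the infimum of the ratios `λ₂ / λ₁` with
`λ₁ C₁ + t₁ ⊆ C₂ ⊆ λ₂ C₁ + t₂`; `gam n` is the supremum over the bodies `C` of the infimum over the
`n`-gons `P` of `homDist C P`.

Proof idea. Put the origin at the Santaló point of `C` and let `c = 1 - π² / n²`. Walk around `C`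
by chords with end points on the boundary, each touching the smaller copy `c C`. If a chord leads
from the boundary point in the direction `θ` with a normal in the direction `ψ` to the boundary point
in the direction `θ'` with a normal in the direction `ψ'`, then the area of the sector of `C` between
`θ` and `θ'` times the area of the sector of the polar body between `ψ` and `ψ'` is at least `1 - c`
(the chord is split at the point of `C` with the same normal as the chord; for each half the product
of the areas of two triangles is computed by the Binet-Cauchy identity). By the inequality of Cauchy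
and Schwarz, less than a full turn in `n` chords would give `n² (1 - c) < |C| |C°|`, which the
inequality `|C| |C°| ≤ π²` of Blaschke and Santaló excludes. That inequality is proved here from
scratch, by a discretisation in the directions `j π / q` and a finite Fourier inequality.
-/

namespace Pool.Agent.Results.MP_f9af53_co.QuadraticUpperBound

open Pool.Agent.HBM3 Pointwise Real

/-- For every `n ≥ 4`, every planar convex body `C` contains an `n`-gon `P` such that `C` is
contained in a translate of `(1 / (1 - π² / n²)) • P`. In particular `γ_n ≤ 1 / (1 - π² / n²)`. -/
theorem result (n : ℕ) (hn : 4 ≤ n) :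
    (∀ C : Set Pl, IsBody C → ∃ P : Set Pl, IsNGon n P ∧ P ⊆ C ∧
      ∃ t : Pl, C ⊆ (1 / (1 - π ^ 2 / n ^ 2) : ℝ) • P + {t}) ∧
    gam n ≤ 1 / (1 - π ^ 2 / n ^ 2) :=
  ⟨fun _ hC => Pool.Agent.H95G.main_geo hn hC, Pool.Agent.H95G.gam_le_main hn⟩

end Pool.Agent.Results.MP_f9af53_co.QuadraticUpperBound
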