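import Pool.Agent.HBM3.Main

/-!
# Approximating planar convex bodies by triangles up to homothety: `γ_3 ≤ 219/100`

Definitions (`Pool/Agent/HBM3/Defs.lean`): `Pl` is the Euclidean plane, `IsBody C`: `C` is convex,
compact, with nonempty interior; `IsNGon n P`: `P` is the convex hull of at most `n` points and has
nonempty interior; `homDist C₁ C₂` is the infimum of the ratios `λ₂ / λ₁` with
`λ₁ C₁ + t₁ ⊆ C₂ ⊆ λ₂ C₁ + t₂`; `gam n` is the supremum over the bodies `C` of the infimum over the
`n`-gons `P` of `homDist C P`.

Proof idea. Let `ABC` be a triangle of maximum area inscribed in `C`, and let `X, Y, Z` be points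
of `C` farthest from the lines `BC`, `CA`, `AB` (on the other side than `A`, `B`, `C`). If `Y` is the
one with the smallest excess, one of the three triangles `ABC`, `ABW` (with `W` on the segment
`CX`) and `VBW` (with `V` on `AZ` and `W` on `CX`) has the property; that one of them works
is reduced to polynomial inequalities in the two largest excesses.
-/

namespace Pool.Agent.Results.MP_f9af53_co.TriangleUpperBound

open Pool.Agent.HBM3 Pointwise

/-- Every planar convex body `C` contains a triangle `P` such that `C` is contained in a translate
of `219/100 • P`. In particular `γ_3 ≤ 219/100`. -/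
theorem result :
    (∀ C : Set Pl, IsBody C → ∃ P : Set Pl, IsNGon 3 P ∧ P ⊆ C ∧
      ∃ t : Pl, C ⊆ (219/100 : ℝ) • P + {t}) ∧ gam 3 ≤ 219/100 :=
  ⟨fun _ hC => main_geo hC, gam_le⟩

end Pool.Agent.Results.MP_f9af53_co.TriangleUpperBound
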